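import Pool.Agent.E8helper75.QI.Bas
import Pool.Agent.E8helper52.QK.Che

/-!
# Project QI: S_CHI, the values of the two characters
-/

set_option autoImplicit false
set_option linter.unusedSectionVars false

open Filter Complex
open scoped Topology PeriodPair
open H667R3 hiding sq
open Pool.Agent.TH936.CM Pool.Agent.W192.HK

namespace Pool.Agent.E8helper7.QI

open Pool.Agent.Y699
open Pool.Agent.E8helper21.Q2
open Pool.Agent.E8helper21.QT (c4_rec' JJ_all)
open Pool.Agent.E8helper75.QI (x1 x3 x1_eq x1_norm th_x1 th_x3 XT XT_prim TH)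
open Pool.Agent.E8helper52.QK (wq_par sum_par c4_rec1)
open H385 (ZI RQ im1 nrm)
open Pool.Agent.H304R3.HK (tc HC LH)
open Pool.Agent.W164.RC (tc_mul tc_star two2 prim_iff_dvd unit_norm unit_cases)
open Pool.Agent.H304R2.EC.A1 (prim prim_mul prim_cancel prim_one prim_norm_odd prim_star eq_one_of_prim
  norm_def' re_mul' im_mul' eq_of_dvd prim_ne_zero exists_prim)

/-- the supplementary law -/
lemma q4_im1 {z : ZI} (hz : PP z) : q4 z im1 = x1 z := by
  rw [q4_unit hz im1_norm]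
  symm
  apply x1_eq
  obtain ⟨h1, h2⟩ := hz.prm
  have hn := norm_def' z
  obtain ⟨s, hs⟩ : ∃ s, z.im = 2 * s := ⟨z.im / 2, by omega⟩
  obtain ⟨k, hk⟩ : ∃ k, z.re = 1 - 2 * s + 4 * k := ⟨(z.re - 1 + 2 * s) / 4, by omega⟩
  have e1 : z.norm = 1 + 4 * (2 * (s * s) + 4 * (k * k) - s + 2 * k - 4 * (s * k)) := by
    rw [hn, hk, hs]; ring
  have hnn : 0 ≤ z.norm := Zsqrtd.norm_nonneg (by norm_num) z
  have hw : ((nrm z / 4 : ℕ) : ℤ) = z.norm / 4 := by
    unfold nrm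
    rw [Int.natCast_div, Int.natAbs_of_nonneg hnn]
    rfl
  have hw2 : z.norm / 4 = 2 * (s * s) + 4 * (k * k) - s + 2 * k - 4 * (s * k) := by
    rw [e1]
    omega
  rw [hw, hw2, hk]
  obtain ⟨c, hc⟩ := Int.even_mul_succ_self (s - 1)
  have hc' : s * s = s + (c + c) := by
    rw [← hc]; ring
  rw [hc']
  omega

lemma x1_sq {z : ZI} (hz : prim z) : x1 z ^ 2 = (-1) ^ wq z := by
  obtain ⟨-, h⟩ := wq_par hz
  rw [th_x1.sqr z hz]
  split_ifs with h5
  · have h6 := h.2 h5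
    have h7 : wq z % 2 = 1 := by omega
    rw [(Nat.odd_iff.2 h7).neg_one_pow]
  · have h7 : wq z % 2 = 0 := by
      by_contra h8
      exact h5 (h.1 (by omega))
    rw [(Nat.even_iff.2 h7).neg_one_pow]

lemma x1_star (z : ZI) : x1 z * star (x1 z) = 1 := by
  have h := x1_norm z
  have h3 := Zsqrtd.norm_eq_mul_conj (x1 z)
  rw [h] at h3
  rw [← h3]
  rfl

lemma x1_eq3 {z : ZI} (hz : prim z) : x3 z * (-1) ^ wq z = x1 z := by
  have h1 := x1_sq hz
  have h2 := x1_star z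
  have e : x3 z = star (x1 z) := rfl
  rw [e]
  linear_combination (-star (x1 z)) * h1 + x1 z * h2

lemma q4_neg_im1 {z : ZI} (hz : PP z) : q4 z (-im1) = x3 z := by
  have e : (-im1 : ZI) = im1 ^ 3 := by decide
  have h2 := x1_star z
  have h1 : x1 z ^ 4 = 1 := by
    have := x1_sq hz.prm
    calc x1 z ^ 4 = (x1 z ^ 2) ^ 2 := by ring
      _ = ((-1) ^ wq z) ^ 2 := by rw [this]
      _ = 1 := by rw [← pow_mul, mul_comm, pow_mul]; norm_num
  have e3 : x3 z = star (x1 z) := rfl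
  rw [e, q4_pow hz, q4_im1 hz, e3]
  linear_combination (star (x1 z)) * h1 - x1 z ^ 3 * h2

theorem chi : ∀ (ι : Type) [DecidableEq ι] (pr : ι → ZI) (hp : PF pr) (V : Finset ι),
    (∀ z : ZI, PP z → z ∣ DD pr V → XT th_x3 hp V z = 0 ∧ XT th_x1 hp V z = 0) ∧
    (∀ z : ZI, PP z → ¬ z ∣ DD pr V →
      (∑ i ∈ V, wt pr i = 0 →
        XT th_x3 hp V z = (starRingEnd ℂ) (tc (Pool.Agent.Y699.q4 z (-(im1 * DD pr V))))) ∧
      (∑ i ∈ V, wt pr i = 1 →
        XT th_x1 hp V z = (starRingEnd ℂ) (tc (Pool.Agent.Y699.q4 z (-(im1 * DD pr V)))))) := by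
  intro ι _ pr hp V
  constructor
  · intro z hz hd
    have h0 : c4 pr V on1 z = 0 := by
      unfold DD at hd
      obtain ⟨i, hi, h1⟩ := (Prime.dvd_finsetProd_iff hz.pr pr).1 hd
      have h2 := PP.eq_of_dvd hz (hp.pp i) h1
      exact c4_zero on1 hi (h2 ▸ dvd_rfl)
    constructor
    · rw [XT_prim th_x3 hp V hz.prm, h0, mul_zero, tc_zero, map_zero]
    · rw [XT_prim th_x1 hp V hz.prm, h0, mul_zero, tc_zero, map_zero]
  · intro z hz hd
    have e0 : q4 z (-(im1 * DD pr V)) = x3 z * q4 z (DD pr V) := by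
      rw [← q4_neg_im1 hz, ← q4_mul hz]
      congr 1
      ring
    constructor
    · intro h0
      rw [sum_par hp V] at h0
      have h1 : (∑ i ∈ V, wq (pr i)) % 2 = 0 := Nat.even_iff.1 (ZMod.natCast_eq_zero_iff_even.1 h0)
      rw [XT_prim th_x3 hp V hz.prm, e0, c4_rec' JJ_all hp h1 hz hd]
    · intro h0
      rw [sum_par hp V] at h0
      have h1 : (∑ i ∈ V, wq (pr i)) % 2 = 1 := Nat.odd_iff.1 (ZMod.natCast_eq_one_iff_odd.1 h0)
      rw [XT_prim th_x1 hp V hz.prm, e0, c4_rec1 hp h1 hz hd]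
      congr 2
      rw [← x1_eq3 hz.prm]
      ring

end Pool.Agent.E8helper7.QI
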