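import Pool.Agent.E8helper7.QI.Chi
import Pool.Agent.E8helper75.QI.Stm

/-!
# Project QI: S_CHI
-/

set_option autoImplicit false

namespace Pool.Agent.E8helper7.QI

theorem t_CHI : Pool.Agent.E8helper75.QI.S_CHI := chi

end Pool.Agent.E8helper7.QI
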