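import Pool.Agent.Y699.Val

/-!
The valuations of the values at the points of odd order, for `y² = x³ + i D x`: the algebra.
-/

set_option autoImplicit false

open Complex

namespace Pool.Agent.E8helper7.QI

open Pool.Agent.Y699

variable {Γ : Type*} [LinearOrderedCommGroupWithZero Γ] {v : Valuation ℂ Γ}

theorem coreI (h2 : v 2 < 1) {e1 X0 X x' b K K' r m : ℂ} (hX0 : X0 ^ 2 = -1)
    (hx : v (x' - e1) = v (1 + I))
    (hd : (X - X0) ^ 2 * (x' - e1) = 4 * I * X) (hb : b ^ 2 = -8 * X0 * X * (X ^ 2 - 1))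
    (hK : K ^ 4 = (X0 - X) ^ 2 + b) (hr : r ^ 2 * X = X0) (hK' : K' = r * K) (hm : m ^ 8 = -16) :
    v ((K + K') / m) < 1 ∧ v ((1 + I) * K' / m) < 1 := by
  have hg := v_pi_lt h2
  have hgne := v_pi_ne (v := v)
  have hg2 : v 2 = v (1 + I) ^ 2 := v_pi_sq.symm
  set g := v (1 + I) with hgd
  have hg0 : 0 < g := zero_lt_iff.2 hgne
  have v4 : v 4 = g ^ 4 := by
    have : (4 : ℂ) = 2 ^ 2 := by norm_num
    rw [this, map_pow, hg2, ← pow_mul]
  have v8 : v 8 = g ^ 6 := by
    have : (8 : ℂ) = 2 ^ 3 := by norm_num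
    rw [this, map_pow, hg2, ← pow_mul]
  have v16 : v 16 = g ^ 8 := by
    have : (16 : ℂ) = 2 ^ 4 := by norm_num
    rw [this, map_pow, hg2, ← pow_mul]
  have gn : ∀ n : ℕ, 0 < g ^ n := fun n => pow_pos hg0 n
  have gl : ∀ n : ℕ, n ≠ 0 → g ^ n < 1 := fun n hn => pow_lt_one₀ zero_le hg hn
  have gm : ∀ a b : ℕ, a < b → g ^ b < g ^ a := fun a b hab =>
    pow_lt_pow_right_of_lt_one₀ hg0 hg hab
  have vX0 : v X0 = 1 := by
    apply v_pow_one (n := 2) (by norm_num)
    rw [← map_pow, hX0, Valuation.map_neg, map_one]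
  set h := X - X0 with hh
  have hXh : X = X0 + h := by rw [hh]; ring
  have E : v h ^ 2 * g = g ^ 4 * v X := by
    have := congrArg v hd
    rwa [map_mul, map_pow, hx, map_mul, map_mul, v4, v_I, mul_one] at this
  have vX : v X = 1 := by
    rcases lt_trichotomy (v X) 1 with h3 | h3 | h3
    · exfalso
      have h4 : v h = 1 := by
        have := Valuation.map_sub_eq_of_lt_right v (x := X) (y := X0) (by rw [vX0]; exact h3)
        rw [← hh, vX0] at this
        exact this
      rw [h4, one_pow, one_mul] at E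
      have h5 : g ^ 4 * v X < g := by
        calc g ^ 4 * v X = g * (g ^ 3 * v X) := by rw [← mul_assoc, ← pow_succ']
          _ < g * 1 := by
            refine mul_lt_mul_of_pos_left ?_ hg0
            exact lt_of_le_of_lt (mul_le_of_le_one_right' h3.le) (gl 3 (by norm_num))
          _ = g := mul_one g
      rw [← E] at h5
      exact lt_irrefl _ h5
    · exact h3
    · exfalso
      have h4 : v h = v X := by
        have := Valuation.map_sub_eq_of_lt_left v (x := X) (y := X0) (by rw [vX0]; exact h3)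
        rwa [← hh] at this
      rw [h4] at E
      have h5 : g ^ 4 * v X < v X ^ 2 * g := by
        calc g ^ 4 * v X = (g ^ 3 * v X) * g := by rw [mul_right_comm, ← pow_succ]
          _ < v X ^ 2 * g := by
            refine mul_lt_mul_of_pos_right ?_ hg0
            rw [sq]
            refine mul_lt_mul_of_pos_right ?_ (zero_lt_one.trans h3)
            exact (gl 3 (by norm_num)).trans h3
      rw [← E] at h5
      exact lt_irrefl _ h5
  have vh : v h ^ 2 = g ^ 3 := by
    rw [vX, mul_one] at E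
    have : v h ^ 2 * g = g ^ 3 * g := by rw [E, ← pow_succ]
    exact mul_right_cancel₀ hgne this
  have vh1 : v h < 1 := by
    by_contra hc
    push Not at hc
    have := one_le_pow₀ hc (n := 2)
    rw [vh] at this
    exact absurd this (not_le.2 (gl 3 (by norm_num)))
  have hXne : X ≠ 0 := by
    intro h0
    rw [h0, map_zero] at vX
    exact zero_ne_one vX
  have one1 : v (1 : ℂ) ≤ 1 := by rw [map_one]
  -- `b` is small
  have vq : v (X ^ 2 - 1) ≤ g ^ 2 := by
    have e : X ^ 2 - 1 = h ^ 2 + 2 * (X0 * h - 1) := by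
      rw [hXh]
      linear_combination hX0
    rw [e]
    refine v.map_add_le ?_ ?_
    · rw [map_pow, vh]
      exact (gm 2 3 (by norm_num)).le
    · rw [map_mul, hg2]
      refine mul_le_of_le_one_right' (v.map_sub_le ?_ one1)
      rw [map_mul, vX0, one_mul]
      exact vh1.le
  have vb : v b ≤ g ^ 4 := by
    by_contra hc
    push Not at hc
    have h3 : (g ^ 4) ^ 2 < v b ^ 2 := pow_lt_pow_left₀ hc zero_le (by norm_num)
    have h5 : v b ^ 2 = g ^ 6 * v (X ^ 2 - 1) := by
      rw [← map_pow, hb, map_mul, map_mul, map_mul, Valuation.map_neg, v8, vX0, vX, mul_one,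
        mul_one]
    rw [h5] at h3
    have h4 : g ^ 6 * v (X ^ 2 - 1) ≤ g ^ 6 * g ^ 2 := mul_le_mul_right vq _
    rw [← pow_mul] at h3
    rw [← pow_add] at h4
    exact absurd h4 (not_le.2 h3)
  have vK : v K ^ 4 = g ^ 3 := by
    have e : K ^ 4 = h ^ 2 + b := by
      rw [hK, hh]; ring
    have h3 : v b < v (h ^ 2) := by
      rw [map_pow, vh]
      exact lt_of_le_of_lt vb (gm 3 4 (by norm_num))
    rw [← map_pow, e, Valuation.map_add_eq_of_lt_left v h3, map_pow, vh]
  -- the unit `r`
  have vr : v r = 1 := by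
    apply v_pow_one (n := 2) (by norm_num)
    have h3 := congrArg v hr
    rwa [map_mul, vX, mul_one, vX0, map_pow] at h3
  have hrr : (r - 1) * (r + 1) = -h / X := by
    field_simp
    rw [hh]
    linear_combination hr
  have vrr : (v (r - 1) * v (r + 1)) ^ 2 = g ^ 3 := by
    rw [← map_mul, hrr, map_div₀, Valuation.map_neg, vX, div_one, vh]
  have vs : v (r - 1) = v (r + 1) := by
    have e : r - 1 = r + 1 - 2 := by ring
    rcases le_or_gt (v (r + 1)) (g ^ 2) with h3 | h3
    · exfalso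
      have h4 : v (r - 1) ≤ g ^ 2 := by
        rw [e]
        exact v.map_sub_le h3 hg2.le
      have h5 : (v (r - 1) * v (r + 1)) ^ 2 ≤ (g ^ 2 * g ^ 2) ^ 2 :=
        pow_le_pow_left₀ zero_le (mul_le_mul' h4 h3) 2
      rw [vrr, ← pow_add, ← pow_mul] at h5
      exact absurd h5 (not_le.2 (gm 3 8 (by norm_num)))
    · rw [e]
      exact Valuation.map_sub_eq_of_lt_left v (by rw [hg2]; exact h3)
  have vs4 : v (r + 1) ^ 4 = g ^ 3 := by
    rw [vs, ← sq, ← pow_mul] at vrr
    exact vrr
  have hmne : m ≠ 0 := by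
    rintro rfl
    norm_num at hm
  have vm8 : v m ^ 8 = g ^ 8 := by
    rw [← map_pow, hm, Valuation.map_neg, v16]
  have key : ∀ y : ℂ, v y ^ 8 < g ^ 8 → v (y / m) < 1 := by
    intro y hy
    by_contra hc
    push Not at hc
    have h3 : 1 ≤ v (y / m) ^ 8 := one_le_pow₀ hc
    rw [map_div₀, div_pow, vm8, one_le_div₀ (gn 8)] at h3
    exact absurd h3 (not_le.2 hy)
  constructor
  · apply key
    have e : K + K' = K * (r + 1) := by rw [hK']; ring
    have e8 : ∀ y : ℂ, v y ^ 8 = (v y ^ 4) ^ 2 := fun y => by rw [← pow_mul]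
    rw [e8, e, map_mul, mul_pow, vK, vs4, ← pow_add, ← pow_mul]
    exact gm 8 12 (by norm_num)
  · apply key
    have e8 : ∀ y : ℂ, v y ^ 8 = (v y ^ 4) ^ 2 := fun y => by rw [← pow_mul]
    rw [e8, hK', map_mul, map_mul, vr, one_mul, mul_pow, vK, ← pow_add, ← pow_mul]
    exact gm 8 14 (by norm_num)

end Pool.Agent.E8helper7.QI
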