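import Pool.Agent.E8helper75.QI.Bas
import Pool.Agent.E8helper41.Q2.ValLat
import Pool.Agent.E8helper7.QI.ValC

/-!
# Project QI: S_BSI and S_VALI
-/

set_option autoImplicit false
set_option linter.unusedSectionVars false

open Filter Complex
open scoped Topology PeriodPair
open H667R3 hiding sq
open Pool.Agent.TH936.CM Pool.Agent.W192.HK

namespace Pool.Agent.E8helper7.QI

open Pool.Agent.Y699
open Pool.Agent.E8helper21.Q2 (Kf X0 tI S_LK S_K4 S_PR)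
open Pool.Agent.E8helper75.QI (K3 K1)
open Pool.Agent.E8helper41.Q2 (two_dz_add two_dz_sub half_add ot_neg)
open H385 (ZI RQ im1 nrm)
open Pool.Agent.H304R3.HK (tc HC LH)

variable {L : PeriodPair} {Ω : ℂ}

/-- translation by a lattice point -/
theorem KT (h : S_LK) (hG : GLat L Ω) {z : ℂ} (hz : z ∉ L.lattice) (c : ZI) :
    Kf L Ω (z + Ω * tc c) = tI (-c) * Kf L Ω z := by
  have hm : Ω * tc c ∈ L.lattice := (mem_lat hG.lat).2 ⟨_, rfl⟩
  have hz' : z + Ω * tc c ∉ L.lattice := by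
    intro h'
    apply hz
    have := sub_mem h' hm
    rwa [add_sub_cancel_right] at this
  refine tendsto_nhds_unique (h L Ω hG _ hz')
    (((h L Ω hG _ hz).const_mul (tI (-c))).congr fun δ => ?_)
  rw [← tsum_mul_left, ← (Equiv.addRight c).tsum_eq]
  refine tsum_congr fun b => ?_
  rw [Equiv.coe_addRight]
  have e1 : tI (-c) * tI (b + c) = tI b := by
    unfold tI
    rw [← zpow_add₀ I_ne_zero]
    congr 1
    rw [Zsqrtd.re_add, Zsqrtd.im_add, Zsqrtd.re_neg, Zsqrtd.im_neg]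
    ring
  rw [← mul_assoc, e1, tc_add]
  congr 2
  ring

lemma tI_neg_im1 : tI (-im1) = -I := by
  unfold tI
  have e : (-im1 : ZI).re + (-im1 : ZI).im = -1 := by decide
  rw [e, zpow_neg_one, inv_I]

lemma tI_neg_neg_one : tI (-(-1 : ZI)) = I := by
  unfold tI
  have e : (-(-1 : ZI)).re + (-(-1 : ZI)).im = 1 := by decide
  rw [e, zpow_one]

/-- translation by `I Ω` -/
lemma KT_I (h : S_LK) (hG : GLat L Ω) {z : ℂ} (hz : z ∉ L.lattice) :
    Kf L Ω (z + I * Ω) = -I * Kf L Ω z := by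
  have h1 := KT h hG hz im1
  rw [tI_neg_im1, tc_im1] at h1
  rw [← h1]
  congr 1
  ring

/-- translation by `-Ω` -/
lemma KT_one (h : S_LK) (hG : GLat L Ω) {z : ℂ} (hz : z ∉ L.lattice) :
    Kf L Ω (z - Ω) = I * Kf L Ω z := by
  have h1 := KT h hG hz (-1)
  rw [tI_neg_neg_one, tc_neg, tc_one] at h1
  rw [← h1]
  congr 1
  ring

lemma I_two_notMem (hG : GLat L Ω) {w : ℂ} (h : 2 * w ∉ L.lattice) : 2 * (I * w) ∉ L.lattice := by
  intro h'
  apply h
  have h1 := neg_mem (lat_I hG.lat h')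
  have e : -(I * (2 * (I * w))) = 2 * w := by linear_combination (-2 * w) * I_sq
  rwa [e] at h1

lemma neg_two_notMem {w : ℂ} (h : 2 * w ∉ L.lattice) : 2 * (-w) ∉ L.lattice := by
  intro h'
  apply h
  have h1 := neg_mem h'
  have e : -(2 * -w) = 2 * w := by ring
  rwa [e] at h1

/-- BSI -/
theorem bsi (h : S_K4) (hG : GLat L Ω) :
    K3 L Ω (dz Ω) ^ 8 = -16 ∧ K1 L Ω (dz Ω) ^ 8 = -16 := by
  have hz := I_two_notMem hG hG.two_dz
  have hz' := neg_two_notMem hz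
  have hx := hG.x0_sq
  have hy := hG.eqn hG.dz_notMem
  constructor
  · obtain ⟨κ, h1, h2⟩ := h L Ω hG _ hz
    rw [wp_I hG.lat, wp'_I hG.lat] at h2
    unfold X0 at h1 h2
    unfold K3
    set X := ℘[L] (dz Ω)
    set Y := ℘'[L] (dz Ω)
    have h3 : Kf L Ω (I * dz Ω) ^ 4 = κ * I * Y := by rw [h2]; ring
    have h4 : I ^ 8 = (1 : ℂ) := by
      calc I ^ 8 = (I ^ 4) ^ 2 := by ring
        _ = 1 := by rw [I_pow_four]; norm_num
    calc (I * Kf L Ω (I * dz Ω)) ^ 8 = I ^ 8 * (Kf L Ω (I * dz Ω) ^ 4) ^ 2 := by ring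
      _ = I ^ 2 * κ ^ 2 * Y ^ 2 := by rw [h3, h4]; ring
      _ = -16 := by
        rw [I_sq, h1, hy]
        linear_combination (-8 * X ^ 2 + 16) * hx
  · obtain ⟨κ, h1, h2⟩ := h L Ω hG _ hz'
    rw [L.weierstrassP_neg, L.derivWeierstrassP_neg, wp_I hG.lat, wp'_I hG.lat] at h2
    unfold X0 at h1 h2
    unfold K1
    set X := ℘[L] (dz Ω)
    set Y := ℘'[L] (dz Ω)
    have h3 : Kf L Ω (-(I * dz Ω)) ^ 4 = -κ * I * Y := by rw [h2]; ring
    have h4 : I ^ 8 = (1 : ℂ) := by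
      calc I ^ 8 = (I ^ 4) ^ 2 := by ring
        _ = 1 := by rw [I_pow_four]; norm_num
    calc (-I * Kf L Ω (-(I * dz Ω))) ^ 8 = I ^ 8 * (Kf L Ω (-(I * dz Ω)) ^ 4) ^ 2 := by ring
      _ = I ^ 2 * κ ^ 2 * Y ^ 2 := by rw [h3, h4]; ring
      _ = -16 := by
        rw [I_sq, h1, hy]
        linear_combination (-8 * X ^ 2 + 16) * hx

variable {Γ : Type*} [LinearOrderedCommGroupWithZero Γ] {v : Valuation ℂ Γ}

theorem lat_coreI (h2 : v 2 < 1) (h : GLat L Ω) {P K K' κ r m y : ℂ} (hP : OT L P)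
    (hκ : κ ^ 2 = 2 * ℘[L] (dz Ω)) (hy : y ^ 2 = -℘'[L] (dz Ω + P) ^ 2)
    (hK : K ^ 4 = (℘[L] (dz Ω) - ℘[L] (dz Ω + P)) ^ 2 + κ * y)
    (hr : r ^ 2 * ℘[L] (dz Ω + P) = ℘[L] (dz Ω)) (hK' : K' = r * K) (hm : m ^ 8 = -16) :
    v ((K + K') / m) < 1 ∧ v ((1 + I) * K' / m) < 1 := by
  have hP1 := hP.pow h 1
  rw [pow_one] at hP1
  have h2z := two_dz_add h hP
  have hz := GLat.two_notMem h2z
  obtain ⟨w1, w2⟩ := wp_sub h2 h hP1
  have hx : v (℘[L] ((1 + I) * P) - ℘[L] (Ω / 2)) = v (1 + I) := by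
    rcases sq_eq_one_iff.1 (h.e1_sq) with h7 | h7
    · rw [h7]; exact w1
    · rw [h7, sub_neg_eq_add]; exact w2
  have hd : (℘[L] (dz Ω + P) - ℘[L] (dz Ω)) ^ 2 * (℘[L] ((1 + I) * P) - ℘[L] (Ω / 2)) =
      4 * I * ℘[L] (dz Ω + P) := by
    have e : (1 + I) * (dz Ω + P) = Ω / 2 + (1 + I) * P := by
      rw [mul_add, pi_dz]
    have h3 := half_add h (hP1.two h)
    rw [h.diff_sq h2z, e]
    linear_combination (2 * I * ℘[L] (dz Ω + P)) * h3
  have hb : (κ * y) ^ 2 =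
      -8 * ℘[L] (dz Ω) * ℘[L] (dz Ω + P) * (℘[L] (dz Ω + P) ^ 2 - 1) := by
    rw [mul_pow, hκ, hy, h.eqn hz]
    ring
  exact coreI h2 h.x0_sq hx hd hb hK hr hK' hm

/-- VALI -/
theorem vali (hK4 : S_K4) (hPR : S_PR) (hLK : S_LK) (hG : GLat L Ω) (h2 : v 2 < 1) {m : ℂ}
    (hm : m ^ 8 = -16) {P : ℂ} (hP : OT L P) :
    (v ((K3 L Ω (dz Ω + P) + K3 L Ω (dz Ω - P)) / m) < 1 ∧
      v ((1 + I) * K3 L Ω (dz Ω - P) / m) < 1) ∧
    (v ((K1 L Ω (dz Ω + P) + K1 L Ω (dz Ω - P)) / m) < 1 ∧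
      v ((1 + I) * K1 L Ω (dz Ω - P) / m) < 1) := by
  have a1 := two_dz_add hG hP
  have a2 := two_dz_sub hG hP
  have b1 := I_two_notMem hG a1
  have b2 := I_two_notMem hG a2
  have c1 := neg_two_notMem b1
  have c2 := neg_two_notMem b2
  have hpi := pi_dz (Ω := Ω)
  have hΩ : Ω ∈ L.lattice := hG.om
  have hIΩ : I * Ω ∈ L.lattice := lat_I hG.lat hΩ
  constructor
  · -- the function `K3`
    obtain ⟨κ, k1, k2⟩ := hK4 L Ω hG _ b1
    rw [wp_I hG.lat, wp'_I hG.lat] at k2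
    have eP1 : dz Ω + (I * dz Ω - dz Ω + I * P) = I * (dz Ω + P) := by ring
    have eP2 : dz Ω - (I * dz Ω - dz Ω + I * P) = I * (dz Ω - P) - I * Ω := by
      linear_combination (-2 * I) * hpi + (2 * dz Ω) * I_sq
    have d1 : 2 * (dz Ω + (I * dz Ω - dz Ω + I * P)) ∉ L.lattice := by rw [eP1]; exact b1
    have d2 : 2 * (dz Ω - (I * dz Ω - dz Ω + I * P)) ∉ L.lattice := by
      rw [eP2]
      intro h'
      apply b2
      have h1 := add_mem h' (add_mem hIΩ hIΩ)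
      have e : 2 * (I * (dz Ω - P) - I * Ω) + (I * Ω + I * Ω) = 2 * (I * (dz Ω - P)) := by ring
      rwa [e] at h1
    obtain ⟨ρ, r1, r2⟩ := hPR L Ω hG _ d1 d2
    have d3 := GLat.two_notMem d2
    have t1 := KT_I hLK hG d3
    rw [r2] at t1
    rw [eP1] at r1 t1
    rw [eP2, sub_add_cancel] at t1
    rw [wp_I hG.lat] at r1
    unfold X0 at k1 k2 r1
    obtain ⟨f1, f2⟩ := lat_coreI (v := v) (L := L) (Ω := Ω) (P := P) (K := Kf L Ω (I * (dz Ω + P)))
      (K' := Kf L Ω (I * (dz Ω - P))) (κ := κ) (r := -I * ρ) (m := m)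
      (y := I * ℘'[L] (dz Ω + P)) h2 hG hP k1 (by rw [mul_pow, I_sq]; ring) (by rw [k2]; ring)
      (by rw [mul_pow, neg_sq, I_sq]; linear_combination r1) (by rw [t1]; ring) hm
    unfold K3
    constructor
    · have e : (I * Kf L Ω (I * (dz Ω + P)) + I * Kf L Ω (I * (dz Ω - P))) / m =
          I * ((Kf L Ω (I * (dz Ω + P)) + Kf L Ω (I * (dz Ω - P))) / m) := by ring
      rw [e, map_mul, v_I, one_mul]
      exact f1
    · have e : (1 + I) * (I * Kf L Ω (I * (dz Ω - P))) / m =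
          I * ((1 + I) * Kf L Ω (I * (dz Ω - P)) / m) := by ring
      rw [e, map_mul, v_I, one_mul]
      exact f2
  · -- the function `K1`
    obtain ⟨κ, k1, k2⟩ := hK4 L Ω hG _ c1
    rw [L.weierstrassP_neg, L.derivWeierstrassP_neg, wp_I hG.lat, wp'_I hG.lat] at k2
    have eP1 : dz Ω + (-(I * dz Ω) - dz Ω - I * P) = -(I * (dz Ω + P)) := by ring
    have eP2 : dz Ω - (-(I * dz Ω) - dz Ω - I * P) = -(I * (dz Ω - P)) + Ω := by
      linear_combination 2 * hpi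
    have d1 : 2 * (dz Ω + (-(I * dz Ω) - dz Ω - I * P)) ∉ L.lattice := by rw [eP1]; exact c1
    have d2 : 2 * (dz Ω - (-(I * dz Ω) - dz Ω - I * P)) ∉ L.lattice := by
      rw [eP2]
      intro h'
      apply c2
      have h1 := sub_mem h' (add_mem hΩ hΩ)
      have e : 2 * (-(I * (dz Ω - P)) + Ω) - (Ω + Ω) = 2 * -(I * (dz Ω - P)) := by ring
      rwa [e] at h1
    obtain ⟨ρ, r1, r2⟩ := hPR L Ω hG _ d1 d2
    have d3 := GLat.two_notMem d2
    have t1 := KT_one hLK hG d3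
    rw [r2] at t1
    rw [eP1] at r1 t1
    rw [eP2, add_sub_cancel_right] at t1
    rw [L.weierstrassP_neg, wp_I hG.lat] at r1
    unfold X0 at k1 k2 r1
    obtain ⟨f1, f2⟩ := lat_coreI (v := v) (L := L) (Ω := Ω) (P := P)
      (K := Kf L Ω (-(I * (dz Ω + P))))
      (K' := Kf L Ω (-(I * (dz Ω - P)))) (κ := κ) (r := I * ρ) (m := m)
      (y := -(I * ℘'[L] (dz Ω + P))) h2 hG hP k1 (by rw [neg_sq, mul_pow, I_sq]; ring)
      (by rw [k2]; ring)
      (by rw [mul_pow, I_sq]; linear_combination r1) (by rw [t1]; ring) hm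
    unfold K1
    have vmI : v (-I) = 1 := by rw [Valuation.map_neg, v_I]
    constructor
    · have e : (-I * Kf L Ω (-(I * (dz Ω + P))) + -I * Kf L Ω (-(I * (dz Ω - P)))) / m =
          -I * ((Kf L Ω (-(I * (dz Ω + P))) + Kf L Ω (-(I * (dz Ω - P)))) / m) := by ring
      rw [e, map_mul, vmI, one_mul]
      exact f1
    · have e : (1 + I) * (-I * Kf L Ω (-(I * (dz Ω - P)))) / m =
          -I * ((1 + I) * Kf L Ω (-(I * (dz Ω - P))) / m) := by ring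
      rw [e, map_mul, vmI, one_mul]
      exact f2

end Pool.Agent.E8helper7.QI
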