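import Pool.Agent.E8helper7.QI.ValI
import Pool.Agent.E8helper75.QI.Stm

/-!
# Project QI: S_BSI and S_VALI
-/

set_option autoImplicit false

namespace Pool.Agent.E8helper7.QI

open Pool.Agent.E8helper21.Q2 (S_LK S_K4 S_PR)

theorem t_BSI (h : S_K4) : Pool.Agent.E8helper75.QI.S_BSI := fun _ _ hG => bsi h hG

theorem t_VALI (h : S_K4) (h' : S_PR) (h'' : S_LK) : Pool.Agent.E8helper75.QI.S_VALI :=
  fun _ _ hG _ _ _ h2 _ hm _ hP => vali h h' h'' hG h2 hm hP

end Pool.Agent.E8helper7.QI
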